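import Pool.Agent.W793.SCH.Stm

set_option autoImplicit false

open MeasureTheory Set

namespace Pool.Agent.W750.SCH

open Pool.Agent.W793.SCH

/-- the Gamma integral after inversion. -/
theorem gam (c s : ℝ) (hc : 0 < c) (hs : 0 < s) :
    IntegrableOn (fun t : ℝ => t ^ (-s - 1) * Real.exp (-(c / t))) (Ioi 0) ∧
    ∫ t in Ioi (0:ℝ), t ^ (-s - 1) * Real.exp (-(c / t)) = (1 / c) ^ s * Real.Gamma s := by
  have key : EqOn (fun t : ℝ => (|(-1:ℝ)| * t ^ ((-1:ℝ) - 1)) •
      ((fun u : ℝ => u ^ (s - 1) * Real.exp (-(c * u))) (t ^ (-1:ℝ))))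
      (fun t => t ^ (-s - 1) * Real.exp (-(c / t))) (Ioi 0) := by
    intro t ht
    have ht : 0 < t := ht
    have h1 : t ^ ((-1:ℝ) - 1) * (t ^ (-1:ℝ)) ^ (s - 1) = t ^ (-s - 1) := by
      rw [← Real.rpow_mul ht.le, ← Real.rpow_add ht]
      congr 1
      ring
    have h2 : c * t ^ (-1:ℝ) = c / t := by
      rw [Real.rpow_neg_one]; rfl
    simp only [smul_eq_mul, abs_neg, abs_one, one_mul]
    rw [← mul_assoc, h1, h2]
  constructor
  · refine IntegrableOn.congr_fun ?_ key measurableSet_Ioi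
    refine (integrableOn_Ioi_comp_rpow_iff (fun u : ℝ => u ^ (s - 1) * Real.exp (-(c * u)))
      (p := -1) (by norm_num)).2 ?_
    have := integrableOn_rpow_mul_exp_neg_mul_rpow (p := 1) (s := s - 1) (b := c) (by linarith)
      one_pos hc
    simpa using this
  · rw [← setIntegral_congr_fun measurableSet_Ioi key]
    refine (integral_comp_rpow_Ioi (fun u : ℝ => u ^ (s - 1) * Real.exp (-(c * u)))
      (p := -1) (by norm_num)).trans ?_
    exact Real.integral_rpow_mul_exp_neg_mul_Ioi hs hc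

/-- the product of the factors. -/
theorem prodB (d : ℕ) (j l : Fin d) (x : Fin d → ℝ) (t : ℝ) :
    ∏ i, (if (if i = j then 1 else 0) + (if i = l then 1 else 0) = 0 then (1:ℝ) else
      if (if i = j then 1 else 0) + (if i = l then 1 else 0) = 1 then -(x i / (2 * t)) else
        x i ^ 2 / (4 * t ^ 2) - 1 / (2 * t)) =
    x j * x l / 4 * (t ^ 2)⁻¹ - (if j = l then 1 else 0) / 2 * t⁻¹ := by
  by_cases hjl : j = l
  · subst hjl
    rw [Finset.prod_eq_single j]
    · simp only [if_true]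
      norm_num
      ring
    · intro i _ hi
      simp [hi]
    · intro h
      exact absurd (Finset.mem_univ _) h
  · have h1 : ∀ i : Fin d, (if (if i = j then 1 else 0) + (if i = l then 1 else 0) = 0 then (1:ℝ)
      else if (if i = j then 1 else 0) + (if i = l then 1 else 0) = 1 then -(x i / (2 * t)) else
        x i ^ 2 / (4 * t ^ 2) - 1 / (2 * t)) =
        (if i = j then -(x i / (2 * t)) else 1) * (if i = l then -(x i / (2 * t)) else 1) := by
      intro i
      by_cases hij : i = j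
      · have hil : i ≠ l := fun h => hjl (hij ▸ h)
        simp [hij, hjl]
      · by_cases hil : i = l
        · simp [hil, Ne.symm hjl]
        · simp [hij, hil]
    rw [Finset.prod_congr rfl fun i _ => h1 i, Finset.prod_mul_distrib, Finset.prod_ite_eq' ,
      Finset.prod_ite_eq', if_pos (Finset.mem_univ _), if_pos (Finset.mem_univ _), if_neg hjl]
    ring

/-- the integrand. -/
theorem integrand (d : ℕ) (j l : Fin d) (x : Fin d → ℝ) (t : ℝ) (ht : 0 < t) :
    ∏ i, rd ((if i = j then 1 else 0) + (if i = l then 1 else 0)) t (x i) =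
    (4 * Real.pi) ^ (-((d:ℝ) / 2)) * (x j * x l / 4) *
      (t ^ (-((d:ℝ) / 2 + 1) - 1) * Real.exp (-(((∑ i, x i ^ 2) / 4) / t))) -
    (4 * Real.pi) ^ (-((d:ℝ) / 2)) * ((if j = l then 1 else 0) / 2) *
      (t ^ (-((d:ℝ) / 2) - 1) * Real.exp (-(((∑ i, x i ^ 2) / 4) / t))) := by
  unfold rd
  rw [Finset.prod_mul_distrib, prodB, Finset.prod_div_distrib, ← Real.exp_sum, Finset.prod_const,
    Finset.card_univ, Fintype.card_fin]
  have h1 : ∑ i, -(x i ^ 2 / (4 * t)) = -(((∑ i, x i ^ 2) / 4) / t) := by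
    rw [Finset.sum_neg_distrib, ← Finset.sum_div, div_div]
  have h2 : (√(4 * Real.pi * t)) ^ d = ((4 * Real.pi) ^ (-((d:ℝ) / 2)) * t ^ (-((d:ℝ) / 2)))⁻¹ := by
    rw [Real.sqrt_eq_rpow, ← Real.rpow_natCast, ← Real.rpow_mul (by positivity),
      ← Real.mul_rpow (by positivity) ht.le, Real.rpow_neg (by positivity), inv_inv]
    congr 1
    ring
  have h3 : t ^ (-((d:ℝ) / 2 + 1) - 1) = t ^ (-((d:ℝ) / 2)) * (t ^ 2)⁻¹ := by
    rw [← Real.rpow_natCast t 2, ← Real.rpow_neg ht.le, ← Real.rpow_add ht]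
    congr 1
    push_cast
    ring
  have h4 : t ^ (-((d:ℝ) / 2) - 1) = t ^ (-((d:ℝ) / 2)) * t⁻¹ := by
    rw [← Real.rpow_neg_one t, ← Real.rpow_add ht]
    congr 1
  rw [h1, h2, h3, h4, div_inv_eq_mul]
  ring

theorem t_GG : S_GG := by
  intro d j l x hd hx
  have hd0 : (0:ℝ) < d := by exact_mod_cast (by omega : 0 < d)
  set R : ℝ := ∑ i, x i ^ 2 with hR
  have hR0 : 0 < R := by
    obtain ⟨i, hi⟩ : ∃ i, x i ≠ 0 := by
      by_contra h
      push Not at h
      exact hx (funext h)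
    refine Finset.sum_pos' (fun i _ => sq_nonneg _) ⟨i, Finset.mem_univ _, by positivity⟩
  obtain ⟨i1, v1⟩ := gam (R / 4) ((d:ℝ) / 2 + 1) (by positivity) (by positivity)
  obtain ⟨i2, v2⟩ := gam (R / 4) ((d:ℝ) / 2) (by positivity) (by positivity)
  have key : EqOn (fun t : ℝ =>
      (4 * Real.pi) ^ (-((d:ℝ) / 2)) * (x j * x l / 4) *
        (t ^ (-((d:ℝ) / 2 + 1) - 1) * Real.exp (-((R / 4) / t))) -
      (4 * Real.pi) ^ (-((d:ℝ) / 2)) * ((if j = l then 1 else 0) / 2) *
        (t ^ (-((d:ℝ) / 2) - 1) * Real.exp (-((R / 4) / t))))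
      (fun t : ℝ => ∏ i, rd ((if i = j then 1 else 0) + (if i = l then 1 else 0)) t (x i))
      (Ioi 0) := fun t ht => (integrand d j l x t ht).symm
  constructor
  · exact IntegrableOn.congr_fun ((i1.const_mul _).sub (i2.const_mul _)) key measurableSet_Ioi
  · rw [← setIntegral_congr_fun measurableSet_Ioi key,
      integral_sub (i1.const_mul _) (i2.const_mul _), integral_const_mul, integral_const_mul,
      v1, v2, Real.Gamma_add_one (by positivity)]
    unfold hess
    rw [← hR]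
    have e1 : (1 / (R / 4)) ^ ((d:ℝ) / 2 + 1) = 4 ^ ((d:ℝ) / 2) * R ^ (-((d:ℝ) / 2)) * (4 / R) := by
      rw [one_div_div, Real.rpow_add (by positivity), Real.rpow_one,
        Real.div_rpow (by norm_num) hR0.le, Real.rpow_neg hR0.le]
      ring
    have e2 : (1 / (R / 4)) ^ ((d:ℝ) / 2) = 4 ^ ((d:ℝ) / 2) * R ^ (-((d:ℝ) / 2)) := by
      rw [one_div_div, Real.div_rpow (by norm_num) hR0.le, Real.rpow_neg hR0.le]
      ring
    have e3 : (4 * Real.pi) ^ (-((d:ℝ) / 2)) = (4 ^ ((d:ℝ) / 2))⁻¹ * (Real.pi ^ ((d:ℝ) / 2))⁻¹ := by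
      rw [Real.mul_rpow (by norm_num) Real.pi_pos.le, Real.rpow_neg (by norm_num),
        Real.rpow_neg Real.pi_pos.le]
    rw [e1, e2, e3]
    have p1 : (0:ℝ) < 4 ^ ((d:ℝ) / 2) := by positivity
    have p2 : (0:ℝ) < Real.pi ^ ((d:ℝ) / 2) := by positivity
    field_simp

end Pool.Agent.W750.SCH
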